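import Pool.Agent.SZT.StmtsC

/-!
# SZT, row CNT (helper98)
-/

set_option autoImplicit false

namespace Pool.Agent.SZT.H98

open Polynomial H58Q Pool.Agent.SZT

section ccalc

variable {R : Type} [CommRing R]

theorem sc_refl [Nontrivial R] (I : Ideal R) : SameCl I I :=
  ⟨1, 1, one_ne_zero, one_ne_zero, rfl⟩

theorem sc_symm {I J : Ideal R} (h : SameCl I J) : SameCl J I := by
  obtain ⟨a, b, ha, hb, h⟩ := h
  exact ⟨b, a, hb, ha, h.symm⟩

theorem sc_trans [IsDomain R] {I J L : Ideal R} (h1 : SameCl I J) (h2 : SameCl J L) :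
    SameCl I L := by
  obtain ⟨a, b, ha, hb, h⟩ := h1
  obtain ⟨c, d, hc, hd, h'⟩ := h2
  refine ⟨c * a, b * d, mul_ne_zero hc ha, mul_ne_zero hb hd, ?_⟩
  rw [← Ideal.span_singleton_mul_span_singleton, ← Ideal.span_singleton_mul_span_singleton,
    mul_assoc, h, mul_left_comm, h', mul_assoc]

theorem sc_mul [IsDomain R] {I J I' J' : Ideal R} (h1 : SameCl I J) (h2 : SameCl I' J') :
    SameCl (I * I') (J * J') := by
  obtain ⟨a, b, ha, hb, h⟩ := h1
  obtain ⟨c, d, hc, hd, h'⟩ := h2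
  refine ⟨a * c, b * d, mul_ne_zero ha hc, mul_ne_zero hb hd, ?_⟩
  rw [← Ideal.span_singleton_mul_span_singleton, ← Ideal.span_singleton_mul_span_singleton,
    mul_mul_mul_comm, h, h', mul_mul_mul_comm]

theorem sc_prin [IsDomain R] {I J : Ideal R} (h : SameCl I J) (hJ : J.IsPrincipal) :
    I.IsPrincipal := by
  obtain ⟨a, b, ha, hb, h⟩ := h
  obtain ⟨g, hg⟩ := hJ
  have hg' : J = Ideal.span {g} := hg
  rw [hg', Ideal.span_singleton_mul_span_singleton] at h
  have h2 : b * g ∈ Ideal.span {a} * I := by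
    rw [h]
    exact Ideal.mem_span_singleton_self _
  obtain ⟨c, _, hc⟩ := Ideal.mem_span_singleton_mul.mp h2
  rw [← hc, ← Ideal.span_singleton_mul_span_singleton] at h
  have h3 : I = Ideal.span {c} := (Ideal.span_singleton_mul_right_inj ha).mp h
  exact ⟨c, h3⟩

/-- multiplication by a nonzero principal ideal -/
theorem sc_mul_span [IsDomain R] (I : Ideal R) {g : R} (hg : g ≠ 0) :
    SameCl (Ideal.span {g} * I) I :=
  ⟨1, g, one_ne_zero, hg, by rw [Ideal.span_singleton_one, Ideal.top_mul]⟩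

end ccalc

section order

variable {R : Type} [CommRing R] [IsDomain R] {I : Ideal R} {N : ℕ}

theorem gen_ne (hI : I ≠ ⊥) (hp : (I ^ N).IsPrincipal) :
    ∃ g : R, g ≠ 0 ∧ I ^ N = Ideal.span {g} := by
  obtain ⟨g, hg⟩ := hp
  have hg' : I ^ N = Ideal.span {g} := hg
  refine ⟨g, ?_, hg'⟩
  rintro rfl
  rw [Ideal.span_singleton_eq_bot.mpr rfl] at hg'
  exact pow_ne_zero N hI hg'

theorem sc_add (hI : I ≠ ⊥) (hp : (I ^ N).IsPrincipal) (k : ℕ) : SameCl (I ^ (k + N)) (I ^ k) := by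
  obtain ⟨g, hg, h⟩ := gen_ne hI hp
  rw [pow_add, h, mul_comm]
  exact sc_mul_span _ hg

theorem sc_add_mul (hI : I ≠ ⊥) (hp : (I ^ N).IsPrincipal) (k m : ℕ) :
    SameCl (I ^ (k + N * m)) (I ^ k) := by
  induction m with
  | zero => exact sc_refl _
  | succ m ih =>
    have : k + N * (m + 1) = (k + N * m) + N := by ring
    rw [this]
    exact sc_trans (sc_add hI hp _) ih

theorem sc_mod (hI : I ≠ ⊥) (hp : (I ^ N).IsPrincipal) (k : ℕ) :
    SameCl (I ^ k) (I ^ (k % N)) := by
  have h := sc_add_mul hI hp (k % N) (k / N)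
  rwa [Nat.mod_add_div] at h

theorem sc_of_mod (hI : I ≠ ⊥) (hp : (I ^ N).IsPrincipal) {k l : ℕ} (h : k % N = l % N) :
    SameCl (I ^ k) (I ^ l) :=
  sc_trans (sc_mod hI hp k) (h ▸ sc_symm (sc_mod hI hp l))

theorem dvd_of_prin (hI : I ≠ ⊥) (hN : 0 < N) (hp : (I ^ N).IsPrincipal)
    (hmin : ∀ j, 0 < j → j < N → ¬ (I ^ j).IsPrincipal) {k : ℕ} (hk : (I ^ k).IsPrincipal) :
    N ∣ k := by
  by_contra hnd
  have h1 : 0 < k % N := Nat.pos_of_ne_zero fun h => hnd (Nat.dvd_of_mod_eq_zero h)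
  exact hmin _ h1 (Nat.mod_lt _ hN) (sc_prin (sc_symm (sc_mod hI hp k)) hk)

theorem eq_of_sc (hI : I ≠ ⊥) (hp : (I ^ N).IsPrincipal)
    (hmin : ∀ j, 0 < j → j < N → ¬ (I ^ j).IsPrincipal) {k l : ℕ} (hk : k < N) (hl : l < N)
    (h : SameCl (I ^ k) (I ^ l)) : k = l := by
  wlog hkl : k ≤ l with H
  · exact (H hI hp hmin hl hk (sc_symm h) (le_of_not_ge hkl)).symm
  rcases Nat.eq_or_lt_of_le hkl with h1 | h1
  · exact h1
  exfalso
  have h2 : SameCl (I ^ (N - k) * I ^ k) (I ^ (N - k) * I ^ l) := sc_mul (sc_refl _) h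
  rw [← pow_add, ← pow_add] at h2
  have e1 : N - k + k = N := by omega
  have e2 : N - k + l = (l - k) + N := by omega
  rw [e1, e2] at h2
  have h3 : SameCl (I ^ (l - k)) (I ^ N) :=
    sc_trans (sc_symm (sc_add hI hp (l - k))) (sc_symm h2)
  exact hmin (l - k) (by omega) (by omega) (sc_prin h3 hp)

end order

theorem cnt (mii : MiiStatement) (pai : PaiStatement) (sid : SidStatement)
    (bdk : BdkStatement) : CntStatement := by
  classical
  intro K _ f I N A B h2 hsq hdeg hI hN hp hmin hdat S hS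
  have hdom : IsDomain (Q K f) := isDomain (g := 2) (by rw [hdeg])
  have hf0 : f ≠ 0 := by
    rintro rfl
    rw [natDegree_zero] at hdeg
    omega
  -- the ideals of the data
  have hmul : ∀ k l, SameCl (MI f (A k) (B k) * MI f (A l) (B l)) (I ^ (k + l)) := by
    intro k l
    rw [pow_add]
    exact sc_mul (hdat k).2.2 (hdat l).2.2
  have hinj : ∀ k l, k < N → l < N → MI f (A k) (B k) = MI f (A l) (B l) → k = l := by
    intro k l hk hl h
    refine eq_of_sc hI hp hmin hk hl ?_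
    have h1 := (hdat l).2.2
    rw [← h] at h1
    exact sc_trans (sc_symm (hdat k).2.2) h1
  have hnp : ∀ k l, ¬ N ∣ k + l → ∀ J : Ideal (Q K f), SameCl J (I ^ (k + l)) →
      ¬ J.IsPrincipal := by
    intro k l hnd J hJ hJp
    exact hnd (dvd_of_prin hI hN hp hmin (sc_prin (sc_symm hJ) hJp))
  -- part 0
  have hS0 : (S.filter fun k => (A k).natDegree ≤ 1).card ≤ Nat.sqrt (2 * N) + 1 := by
    refine sid N _ hN (fun k hk => (hS k (Finset.mem_filter.mp hk).1).1) ?_
    intro k hk l hl k' hk' l' hl' hnd hmod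
    have hk1 := Finset.mem_filter.mp hk
    have hl1 := Finset.mem_filter.mp hl
    have hk1' := Finset.mem_filter.mp hk'
    have hl1' := Finset.mem_filter.mp hl'
    have hsc : SameCl (MI f (A k) (B k) * MI f (A l) (B l))
        (MI f (A k') (B k') * MI f (A l') (B l')) :=
      sc_trans (hmul k l) (sc_trans (sc_of_mod hI hp hmod) (sc_symm (hmul k' l')))
    rcases pai K f (A k) (B k) (A l) (B l) (A k') (B k') (A l') (B l') h2 hsq hdeg
      (hdat k).1 (hdat l).1 (hdat k').1 (hdat l').1 hk1.2 hl1.2 hk1'.2 hl1'.2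
      (hnp k l hnd _ (hmul k l)) hsc with ⟨e1, e2, e3, e4⟩ | ⟨e1, e2, e3, e4⟩
    · left
      exact ⟨hinj k k' (hS k hk1.1).1 (hS k' hk1'.1).1 (by rw [e1, e2]),
        hinj l l' (hS l hl1.1).1 (hS l' hl1'.1).1 (by rw [e3, e4])⟩
    · right
      exact ⟨hinj k l' (hS k hk1.1).1 (hS l' hl1'.1).1 (by rw [e1, e2]),
        hinj l k' (hS l hl1.1).1 (hS k' hk1'.1).1 (by rw [e3, e4])⟩
  -- part f
  have hSf : (S.filter fun k => A k ∣ f ∧ B k = 0).card ≤ 2 := by
    have hsub : (S.filter fun k => A k ∣ f ∧ B k = 0) ⊆ {0, N / 2} := by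
      intro k hk
      obtain ⟨hkS, hdv, hB0⟩ := Finset.mem_filter.mp hk
      have h1 := mii K f (A k) (B k) h2 hsq (by rw [hB0]; simpa using hdv)
      have h3 : MI f (A k) (-(B k)) = MI f (A k) (B k) := by rw [hB0, neg_zero]
      rw [h3] at h1
      have h4 : (MI f (A k) (B k) * MI f (A k) (B k)).IsPrincipal := ⟨_, h1⟩
      have h5 : N ∣ k + k := dvd_of_prin hI hN hp hmin (sc_prin (sc_symm (hmul k k)) h4)
      have h6 := (hS k hkS).1
      obtain ⟨c, hc⟩ := h5
      have hc2 : c < 2 := by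
        by_contra hcc
        have : N * 2 ≤ N * c := Nat.mul_le_mul_left N (by omega)
        omega
      rw [Finset.mem_insert, Finset.mem_singleton]
      interval_cases c
      · left; omega
      · right; omega
    refine (Finset.card_le_card hsub).trans ?_
    exact Finset.card_le_two
  -- part t
  have hSt : ∀ t : K, f.IsRoot t → (S.filter fun k => ∃ a b : K, Mum f (X - C a) (C b) ∧
      MI f (X - C t) 0 * MI f (X - C a) (C b) = MI f (A k) (B k)).card ≤
      Nat.sqrt (2 * N) + 1 := by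
    intro t ht
    have hsq1 : MI f (X - C t) 0 * MI f (X - C t) 0 = Ideal.span {(⟨X - C t, 0⟩ : Q K f)} := by
      have h1 := mii K f (X - C t) 0 h2 hsq (by
        have : (0 : K[X]) ^ 2 - f = - f := by ring
        rw [this]
        exact (dvd_neg).mpr (dvd_iff_isRoot.mpr ht))
      rwa [neg_zero] at h1
    have hne : (⟨X - C t, 0⟩ : Q K f) ≠ 0 := by
      intro h
      have h1 := congrArg QuadraticAlgebra.re h
      exact X_sub_C_ne_zero t h1
    refine sid N _ hN (fun k hk => (hS k (Finset.mem_filter.mp hk).1).1) ?_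
    intro k hk l hl k' hk' l' hl' hnd hmod
    obtain ⟨hkS, ak, bk, mk, ek⟩ := Finset.mem_filter.mp hk
    obtain ⟨hlS, al, bl, ml, el⟩ := Finset.mem_filter.mp hl
    obtain ⟨hkS', ak', bk', mk', ek'⟩ := Finset.mem_filter.mp hk'
    obtain ⟨hlS', al', bl', ml', el'⟩ := Finset.mem_filter.mp hl'
    have hPP : ∀ (a b c d : K) (i j : ℕ),
        MI f (X - C t) 0 * MI f (X - C a) (C b) = MI f (A i) (B i) →
        MI f (X - C t) 0 * MI f (X - C c) (C d) = MI f (A j) (B j) →
        SameCl (MI f (X - C a) (C b) * MI f (X - C c) (C d)) (I ^ (i + j)) := by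
      intro a b c d i j e1 e2
      have h1 := hmul i j
      rw [← e1, ← e2, mul_mul_mul_comm, hsq1] at h1
      exact sc_trans (sc_symm (sc_mul_span _ hne)) h1
    have hsc : SameCl (MI f (X - C ak) (C bk) * MI f (X - C al) (C bl))
        (MI f (X - C ak') (C bk') * MI f (X - C al') (C bl')) :=
      sc_trans (hPP _ _ _ _ k l ek el) (sc_trans (sc_of_mod hI hp hmod)
        (sc_symm (hPP _ _ _ _ k' l' ek' el')))
    have hd1 : ∀ a : K, (X - C a).natDegree ≤ 1 := fun a => (natDegree_X_sub_C a).le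
    rcases pai K f (X - C ak) (C bk) (X - C al) (C bl) (X - C ak') (C bk') (X - C al') (C bl')
      h2 hsq hdeg mk ml mk' ml' (hd1 _) (hd1 _) (hd1 _) (hd1 _)
      (hnp k l hnd _ (hPP _ _ _ _ k l ek el)) hsc with ⟨e1, e2, e3, e4⟩ | ⟨e1, e2, e3, e4⟩
    · left
      refine ⟨hinj k k' (hS k hkS).1 (hS k' hkS').1 ?_, hinj l l' (hS l hlS).1 (hS l' hlS').1 ?_⟩
      · rw [← ek, ← ek', e1, e2]
      · rw [← el, ← el', e3, e4]
    · right
      refine ⟨hinj k l' (hS k hkS).1 (hS l' hlS').1 ?_, hinj l k' (hS l hlS).1 (hS k' hkS').1 ?_⟩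
      · rw [← ek, ← el', e1, e2]
      · rw [← el, ← ek', e3, e4]
  -- the union
  have hcover : S ⊆ (S.filter fun k => (A k).natDegree ≤ 1) ∪
      ((S.filter fun k => A k ∣ f ∧ B k = 0) ∪
        f.roots.toFinset.biUnion fun t => S.filter fun k => ∃ a b : K, Mum f (X - C a) (C b) ∧
          MI f (X - C t) 0 * MI f (X - C a) (C b) = MI f (A k) (B k)) := by
    intro k hk
    rw [Finset.mem_union, Finset.mem_union, Finset.mem_filter, Finset.mem_filter,
      Finset.mem_biUnion]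
    rcases bdk K f (A k) (B k) h2 hsq (hdat k).1 (hdat k).2.1 (hS k hk).2 with h | h | h
    · left; exact ⟨hk, h⟩
    · right; left; exact ⟨hk, h⟩
    · right; right
      obtain ⟨t, a, b, ht, hm, he⟩ := h
      refine ⟨t, ?_, ?_⟩
      · rw [Multiset.mem_toFinset, mem_roots hf0]
        exact ht
      · rw [Finset.mem_filter]
        exact ⟨hk, a, b, hm, he⟩
  have hroots : f.roots.toFinset.card ≤ 5 := by
    refine (Multiset.toFinset_card_le _).trans ?_
    rw [← hdeg]
    exact card_roots' f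
  have hbi : (f.roots.toFinset.biUnion fun t => S.filter fun k => ∃ a b : K,
      Mum f (X - C a) (C b) ∧
          MI f (X - C t) 0 * MI f (X - C a) (C b) = MI f (A k) (B k)).card ≤
      f.roots.toFinset.card * (Nat.sqrt (2 * N) + 1) := by
    refine Finset.card_biUnion_le_card_mul _ _ _ ?_
    intro t ht
    rw [Multiset.mem_toFinset, mem_roots hf0] at ht
    exact hSt t ht
  have h9 : S.card ≤ _ := Finset.card_le_card hcover
  have h10 := Finset.card_union_le (S.filter fun k => (A k).natDegree ≤ 1)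
    ((S.filter fun k => A k ∣ f ∧ B k = 0) ∪
        f.roots.toFinset.biUnion fun t => S.filter fun k => ∃ a b : K, Mum f (X - C a) (C b) ∧
          MI f (X - C t) 0 * MI f (X - C a) (C b) = MI f (A k) (B k))
  have h11 := Finset.card_union_le (S.filter fun k => A k ∣ f ∧ B k = 0)
        (f.roots.toFinset.biUnion fun t => S.filter fun k => ∃ a b : K, Mum f (X - C a) (C b) ∧
          MI f (X - C t) 0 * MI f (X - C a) (C b) = MI f (A k) (B k))
  have h12 : f.roots.toFinset.card * (Nat.sqrt (2 * N) + 1) ≤ 5 * (Nat.sqrt (2 * N) + 1) :=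
    Nat.mul_le_mul_right _ hroots
  omega

end Pool.Agent.SZT.H98
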